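import Pool.Agent.Helper85.QT.St3

/-!
# Project QT, module TOT: the first variation of the complex length is controlled by the crossings
-/

set_option autoImplicit false

open MeasureTheory Matrix Set Topology
open scoped ENNReal ComplexConjugate

namespace Pool.Agent.Helper11.QT

open Pool.Agent.Helper85.QT Pool.Agent.Helper86.QA

theorem per_int (f : ℂ → ℂ) (m : ℝ) (h : ∀ w ∈ Sm m, f (w + 1) = f w + 1) (n : ℤ) :
    ∀ w ∈ Sm m, f (w + n) = f w + n := by
  have hm : ∀ (k : ℤ) (w : ℂ), w ∈ Sm m → w + k ∈ Sm m := by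
    intro k w hw
    simpa [Sm] using hw
  induction n using Int.induction_on with
  | zero =>
    intro w _
    simp
  | succ i hi =>
    intro w hw
    have h1 := h (w + ((i : ℤ) : ℂ)) (hm i w hw)
    have h2 := hi w hw
    have e : w + (((i : ℤ) + 1 : ℤ) : ℂ) = w + ((i : ℤ) : ℂ) + 1 := by
      push_cast
      ring
    rw [e, h1, h2]
    push_cast
    ring
  | pred i hi =>
    intro w hw
    have h1 := h (w + ((-(i : ℤ) - 1 : ℤ) : ℂ)) (hm _ w hw)
    have h2 := hi w hw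
    have e : w + ((-(i : ℤ) - 1 : ℤ) : ℂ) + 1 = w + ((-(i : ℤ) : ℤ) : ℂ) := by
      push_cast
      ring
    rw [e, h2] at h1
    push_cast at h1 ⊢
    linear_combination -h1

theorem ff_int {lam : ℂ} {G φ : ℂ → ℂ} {m : ℝ} (hper : ∀ w ∈ Sm m, G (φ (w + 1)) = G (φ w) + 1)
    (n : ℤ) (w : ℂ) (hw : w ∈ Sm m) :
    ff lam G φ (w + n) = Complex.exp (n * lam) * ff lam G φ w := by
  have h1 := per_int (fun w => G (φ w)) m hper n w hw
  have h2 : G (φ (w + n)) = G (φ w) + n := h1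
  unfold ff
  rw [h2, ← Complex.exp_add]
  congr 1
  ring

theorem mb_image_EE {Γ : Type} [Group Γ] {ρ : Γ →* SL} {α : Γ} {lam : ℂ} {G φ : ℂ → ℂ}
    {m a b : ℝ} (hCHV : StCHV)
    (hA1 : ∀ (n : ℤ) (ξ : ℂ), (ρ (α ^ n)) 1 0 * ξ + (ρ (α ^ n)) 1 1 ≠ 0 ∧
      mb (ρ (α ^ n)) ξ = Complex.exp (n * lam) * ξ)
    (hper : ∀ w ∈ Sm m, G (φ (w + 1)) = G (φ w) + 1) (ha : 0 ≤ a) (hb : b ≤ m) (g : Γ) (n : ℤ) :
    mb (ρ (g * α ^ n)) '' EE lam G φ a b = mb (ρ g) '' EE lam G φ a b := by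
  have hsub : ∀ w ∈ Sab a b, w ∈ Sm m := fun w hw =>
    ⟨lt_of_le_of_lt ha hw.1, lt_of_lt_of_le hw.2 hb⟩
  have hsh : ∀ (k : ℤ) (w : ℂ), w ∈ Sab a b → w + k ∈ Sab a b := by
    intro k w hw
    simpa [Sab] using hw
  have hc := hCHV.2.1
  ext ξ
  constructor
  · rintro ⟨_, ⟨w, hw, rfl⟩, rfl⟩
    refine ⟨ff lam G φ (w + n), ⟨w + n, hsh n w hw, rfl⟩, ?_⟩
    show mb (ρ g) (ff lam G φ (w + n)) = mb (ρ (g * α ^ n)) (ff lam G φ w)
    rw [map_mul, (hc (ρ g) (ρ (α ^ n)) _ (hA1 n _).1).1, (hA1 n _).2,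
      ff_int hper n w (hsub w hw)]
  · rintro ⟨_, ⟨w, hw, rfl⟩, rfl⟩
    have hw' : w + ((-n : ℤ) : ℂ) ∈ Sab a b := hsh (-n) w hw
    refine ⟨ff lam G φ (w + ((-n : ℤ) : ℂ)), ⟨_, hw', rfl⟩, ?_⟩
    show mb (ρ (g * α ^ n)) (ff lam G φ (w + ((-n : ℤ) : ℂ))) = mb (ρ g) (ff lam G φ w)
    rw [map_mul, (hc (ρ g) (ρ (α ^ n)) _ (hA1 n _).1).1, (hA1 n _).2,
      ← ff_int hper n _ (hsub _ hw')]
    congr 2
    push_cast
    ring

theorem one_coset {Γ : Type} [Group Γ] {ρ : Γ →* SL} {α : Γ} {lam : ℂ} {c0 : ℝ} (hACT : StACT)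
    (hD : DTub ρ α lam c0) (h0 : 0 ≤ c0) {x : Pt} (hx : x ∈ up)
    (q1 q2 : Γ ⧸ Subgroup.zpowers α)
    (h1 : 2 * c0 < Tg ρ lam q1.out x) (h2 : 2 * c0 < Tg ρ lam q2.out x) : q1 = q2 := by
  obtain ⟨hA1, hA2, hA3, -⟩ := hACT
  have hx' : ga (ρ q1.out⁻¹) x ∈ up := (hA1 _ x hx).2.1
  obtain ⟨n, hn⟩ := hD (q1.out⁻¹ * q2.out) (ga (ρ q1.out⁻¹) x) hx'
    (by
      unfold Tg at h1
      linarith)
    (by
      unfold Tg
      rw [← hA2 _ _ x hx, ← map_mul]
      have e : (q1.out⁻¹ * q2.out)⁻¹ * q1.out⁻¹ = q2.out⁻¹ := by group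
      rw [e]
      unfold Tg at h2
      linarith)
  have h3 : (QuotientGroup.mk q1.out : Γ ⧸ Subgroup.zpowers α) = QuotientGroup.mk q2.out :=
    QuotientGroup.eq.2 (Subgroup.mem_zpowers_iff.2 ⟨n, hn.symm⟩)
  rwa [QuotientGroup.out_eq', QuotientGroup.out_eq'] at h3

theorem fin_sum {Q : Type} (X T1 T2 T3 : Q → ℝ≥0∞) (K1 K2 K3 L1 L2 S K : ℝ≥0∞)
    (h : ∀ q, X q ≤ K1 * T1 q + K2 * T2 q + K3 * T3 q) (h1 : ∑' q, T1 q ≤ L1)
    (h2 : ∑' q, T2 q ≤ L2) (h3 : K1 * L1 + K2 * L2 ≤ S) (h4 : K3 ≤ K) :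
    ∑' q, X q ≤ S + K * ∑' q, T3 q := by
  calc ∑' q, X q ≤ ∑' q, (K1 * T1 q + K2 * T2 q + K3 * T3 q) := ENNReal.tsum_le_tsum h
    _ = K1 * ∑' q, T1 q + K2 * ∑' q, T2 q + K3 * ∑' q, T3 q := by
        rw [ENNReal.tsum_add, ENNReal.tsum_add, ENNReal.tsum_mul_left, ENNReal.tsum_mul_left,
          ENNReal.tsum_mul_left]
    _ ≤ K1 * L1 + K2 * L2 + K * ∑' q, T3 q := by gcongr
    _ ≤ S + K * ∑' q, T3 q := by gcongr

open Classical in
/-- uncrossed lifts: harmonic measure of the middle part -/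
noncomputable def P1 {Γ : Type} [Group Γ] (ρ : Γ →* SL) (lam : ℂ) (c0 : ℝ) (a b : ℂ) (V : Set ℂ)
    (g : Γ) (u : ℝ) : ℝ≥0∞ :=
  if Crs ρ lam c0 a b g then 0 else ENNReal.ofReal (hv (mb (ρ g) '' V) (gp a b u))

open Classical in
/-- indicator function of the crossing -/
noncomputable def P2 {Γ : Type} [Group Γ] (ρ : Γ →* SL) (lam : ℂ) (c0 : ℝ) (a b : ℂ)
    (g : Γ) (u : ℝ) : ℝ≥0∞ :=
  if 2 * c0 < Tg ρ lam g (gp a b u) then 1 else 0

/-- TOT -/
theorem hTOT (hACT : Pool.Agent.Helper86.QA.StACT) (hCHV : Pool.Agent.Helper86.QA.StCHV)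
    (_hHME : Pool.Agent.Helper86.QA.StHME) (hACU : Pool.Agent.Helper86.QA.StACU)
    (hSB5 : Pool.Agent.Helper85.QT.StSB5) (hANA : Pool.Agent.Helper85.QT.StANA)
    (hANB : Pool.Agent.Helper85.QT.StANB) (hTRA : Pool.Agent.Helper85.QT.StTRA)
    (hLIC : Pool.Agent.Helper85.QT.StLIC) (hCRF : Pool.Agent.Helper85.QT.StCRF)
    (hGPM : Pool.Agent.Helper85.QT.StGPM) (hTGF : Pool.Agent.Helper85.QT.StTGF)
    (hDFX : Pool.Agent.Helper85.QT.StDFX) (hLKA : Pool.Agent.Helper85.QT.StLKA)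
    (hLKG : Pool.Agent.Helper85.QT.StLKG) (hUNA : Pool.Agent.Helper85.QT.StUNA)
    (hUNB : Pool.Agent.Helper85.QT.StUNB) : Pool.Agent.Helper85.QT.StTOT := by
  intro C3 c0 hC3 hc0
  obtain ⟨C1, hC1, hlic⟩ := hLIC C3 c0 hC3 hc0
  obtain ⟨C2, m₁, hC2, hlkg⟩ := hLKG c0 hc0
  have hπ := Real.pi_pos
  refine ⟨6 * Real.pi * C1 + C1 + C2 + |m₁| + 1, ?_, ?_⟩
  · have := abs_nonneg m₁
    nlinarith [mul_pos hπ (lt_of_lt_of_le one_pos hC1)]
  intro Γ _ ρ A B α lam M G m φ bb hAnn hCls hDT hBnd hCm μ0 μ hCof hμ0 γ a b l hγ hMlt hl u₁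
  set C : ℝ := 6 * Real.pi * C1 + C1 + C2 + |m₁| + 1 with hC
  have hπC : 0 < Real.pi * C1 := mul_pos hπ (lt_of_lt_of_le one_pos hC1)
  have habs := abs_nonneg m₁
  have hbb : 1 ≤ bb := hBnd.1
  have hCC1 : C1 ≤ C := by
    rw [hC]
    nlinarith
  have hCC2 : C2 ≤ C := by
    rw [hC]
    nlinarith
  have hC0 : 0 < C := lt_of_lt_of_le hC2 hCC2
  have hCle : C ≤ m := by nlinarith
  have hm₁ : m₁ ≤ m := by
    have h1 : |m₁| ≤ C := by
      rw [hC]
      nlinarith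
    exact (le_abs_self m₁).trans (h1.trans hCle)
  have hC1m : C1 * bb ≤ m := by nlinarith
  have hm0 : 0 < m := lt_of_lt_of_le hC0 hCle
  have hab : a ≠ b := hMlt.1
  have hKD := hAnn.kd
  obtain ⟨haL, hbL, hdfx⟩ := hDFX Γ ρ A B α lam M G m φ C3 hAnn γ a b l hγ hMlt hl
  obtain ⟨hlam, -, -, hHN, -, -, -, -, -, -, -, -, -, -, hEEs⟩ := hANB Γ ρ A B α lam M G m φ C3 hAnn
  obtain ⟨hAn1, -, -, -, -⟩ := hANA Γ ρ A B α lam M G m φ C3 hAnn
  obtain ⟨hcnt, -⟩ := hACU Γ ρ A B hKD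
  have hACT' := hACT
  obtain ⟨hAc1, hAc2, hAc3, -⟩ := hACT
  obtain ⟨hG1, hG2, hG3, hG4⟩ := hGPM
  have hE0 := hEEs 0 m le_rfl le_rfl
  have hEm := hEEs (m / 3) (2 * m / 3) (by positivity) (by linarith)
  set E : Set ℂ := EE lam G φ 0 m with hE
  set Em : Set ℂ := EE lam G φ (m / 3) (2 * m / 3) with hEmd
  have hup : ∀ u : ℝ, gp a b u ∈ up := fun u => (hSB5.1 a b u 0 hab).1
  have hsb : ∀ u : ℝ, sb A B (gp a b u) ≤ 0 := hSB5.2 Γ ρ A B hKD a haL b hbL hab
  have hVm : ∀ g : Γ, MeasurableSet (mb (ρ g) '' Em) := fun g =>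
    ((hTRA Γ ρ A B hKD g Em hEm.1 hEm.2.measurableSet).1).1
  -- invariance of the flat height
  have hTg1 : ∀ (g : Γ) (u : ℝ), Tg ρ lam (γ * g) (gp a b u) = Tg ρ lam g (gp a b (u + l.re)) :=
    fun g u => (hG3 Γ ρ γ a b l hMlt g).2.2 lam u
  have hTg2 : ∀ (g : Γ) (n : ℤ) (u : ℝ), Tg ρ lam (g * α ^ n) (gp a b u) =
      Tg ρ lam g (gp a b u) := fun g n u =>
    (hG4 Γ ρ α lam hAnn.re hAnn.dg hAnn.mu g n).2 _ (hup u)
  have hCrs1 : ∀ g : Γ, Crs ρ lam c0 a b (γ * g) ↔ Crs ρ lam c0 a b g := by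
    intro g
    constructor
    · rintro ⟨u, hu⟩
      rw [hTg1] at hu
      exact ⟨_, hu⟩
    · rintro ⟨u, hu⟩
      refine ⟨u - l.re, ?_⟩
      rw [hTg1, sub_add_cancel]
      exact hu
  have hCrs2 : ∀ (g : Γ) (n : ℤ), Crs ρ lam c0 a b (g * α ^ n) ↔ Crs ρ lam c0 a b g := by
    intro g n
    constructor
    · rintro ⟨u, hu⟩
      rw [hTg2] at hu
      exact ⟨_, hu⟩
    · rintro ⟨u, hu⟩
      refine ⟨u, ?_⟩
      rw [hTg2]
      exact hu
  -- invariance of the center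
  have hcen1 : ∀ g : Γ, cen ρ (γ * g) a b = cen ρ g a b - l.re := fun g =>
    ((hG3 Γ ρ γ a b l hMlt g).1 (hdfx g).1 (hdfx g).2.1).2.2
  have hcen2 : ∀ (g : Γ) (n : ℤ), cen ρ (g * α ^ n) a b = cen ρ g a b := by
    intro g n
    have h1 := (hG4 Γ ρ α lam hAnn.re hAnn.dg hAnn.mu g n).1
    unfold cen
    rw [(h1 a).1, (h1 b).1]
  -- the action of γ on the geodesic
  have hgam : ∀ u : ℝ, ga (ρ γ⁻¹) (gp a b u) = gp a b (u + l.re) := by
    intro u
    have h1 := hG2 (ρ γ) a b l (u + l.re) hMlt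
    rw [add_sub_cancel_right] at h1
    rw [← h1, ← hAc2 _ _ _ (hup _), ← map_mul, inv_mul_cancel, map_one, hAc3 _ (hup _)]
  have hhv1 : ∀ (g : Γ) (u : ℝ), hv (mb (ρ (γ * g)) '' Em) (gp a b u) =
      hv (mb (ρ g) '' Em) (gp a b (u + l.re)) := by
    intro g u
    rw [(hTRA Γ ρ A B hKD (γ * g) Em hEm.1 hEm.2.measurableSet).2.1 _ (hup _),
      (hTRA Γ ρ A B hKD g Em hEm.1 hEm.2.measurableSet).2.1 _ (hup _), _root_.mul_inv_rev, map_mul,
      hAc2 _ _ _ (hup _), hgam]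
  have hhv2 : ∀ (g : Γ) (n : ℤ), mb (ρ (g * α ^ n)) '' Em = mb (ρ g) '' Em := fun g n =>
    mb_image_EE (m := m) hCHV hAn1 hHN.per (by positivity) (by linarith) g n
  -- continuity along the geodesic
  have hcont : ∀ g : Γ, Continuous (fun u : ℝ => Tg ρ lam g (gp a b u)) := fun g =>
    (hTGF Γ ρ lam hlam g a b hab (hdfx g).1 (hdfx g).2.1).2.2.1
  -- unfolding
  have hU1 := hUNB Γ α γ l.re u₁ (fun g => cen ρ g a b) (P1 ρ lam c0 a b Em) hl hcen1 hcen2
    (fun g => by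
      unfold P1
      by_cases h : Crs ρ lam c0 a b g
      · simp only [if_pos h]
        exact measurable_const
      · simp only [if_neg h]
        exact ENNReal.measurable_ofReal.comp ((hCRF a b hab).2.2 _ (hVm g)))
    (fun g u => by
      unfold P1
      by_cases h : Crs ρ lam c0 a b g
      · rw [if_pos h, if_pos ((hCrs1 g).2 h)]
      · rw [if_neg h, if_neg (fun h' => h ((hCrs1 g).1 h')), hhv1])
    (fun g n => by
      funext u
      unfold P1
      by_cases h : Crs ρ lam c0 a b g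
      · rw [if_pos h, if_pos ((hCrs2 g n).2 h)]
      · rw [if_neg h, if_neg (fun h' => h ((hCrs2 g n).1 h')), hhv2])
  have hP2m : ∀ g, Measurable (P2 ρ lam c0 a b g) := fun g => by
    unfold P2
    exact Measurable.ite (isOpen_lt continuous_const (hcont g)).measurableSet measurable_const
      measurable_const
  have hP1m : ∀ g, Measurable (P1 ρ lam c0 a b Em g) := fun g => by
    unfold P1
    by_cases h : Crs ρ lam c0 a b g
    · simp only [if_pos h]
      exact measurable_const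
    · simp only [if_neg h]
      exact ENNReal.measurable_ofReal.comp ((hCRF a b hab).2.2 _ (hVm g))
  have hU2 := hUNB Γ α γ l.re u₁ (fun g => cen ρ g a b) (P2 ρ lam c0 a b) hl hcen1 hcen2 hP2m
    (fun g u => by
      unfold P2
      rw [hTg1])
    (fun g n => by
      funext u
      unfold P2
      rw [hTg2])
  have hvolI : volume (Ico u₁ (u₁ + l.re)) = ENNReal.ofReal l.re := by
    rw [Real.volume_Ico, add_sub_cancel_left]
  have hcQ : Countable (Γ ⧸ Subgroup.zpowers α) := Quotient.countable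
  -- sums over the lifts
  have hS1 : ∑' q : Γ ⧸ Subgroup.zpowers α, (Ico u₁ (u₁ + l.re)).indicator
      (fun _ => ∫⁻ u : ℝ, P1 ρ lam c0 a b Em q.out u) (cen ρ q.out a b) ≤
      ENNReal.ofReal (C1 * bb ^ 2 / m ^ 2) * ENNReal.ofReal l.re := by
    refine hU1.le.trans ?_
    rw [← lintegral_tsum fun q => (hP1m _).aemeasurable]
    calc ∫⁻ u in Ico u₁ (u₁ + l.re), ∑' q : Γ ⧸ Subgroup.zpowers α, P1 ρ lam c0 a b Em q.out u
        ≤ ∫⁻ _ in Ico u₁ (u₁ + l.re), ENNReal.ofReal (C1 * bb ^ 2 / m ^ 2) := by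
          refine lintegral_mono fun u => ?_
          refine le_trans (ENNReal.tsum_le_tsum fun q => ?_)
            (hlic Γ ρ A B α lam M G m φ bb hAnn hBnd hC1m (gp a b u) (hup u) (hsb u)).2
          unfold P1
          by_cases h : Crs ρ lam c0 a b q.out
          · rw [if_pos h]
            exact zero_le
          · rw [if_neg h, indicator_of_mem]
            exact not_lt.1 fun h' => h ⟨u, h'⟩
      _ = ENNReal.ofReal (C1 * bb ^ 2 / m ^ 2) * ENNReal.ofReal l.re := by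
          rw [setLIntegral_const, hvolI]
  have hS2 : ∑' q : Γ ⧸ Subgroup.zpowers α, (Ico u₁ (u₁ + l.re)).indicator
      (fun _ => ∫⁻ u : ℝ, P2 ρ lam c0 a b q.out u) (cen ρ q.out a b) ≤ ENNReal.ofReal l.re := by
    refine hU2.le.trans ?_
    rw [← lintegral_tsum fun q => (hP2m _).aemeasurable]
    calc ∫⁻ u in Ico u₁ (u₁ + l.re), ∑' q : Γ ⧸ Subgroup.zpowers α, P2 ρ lam c0 a b q.out u
        ≤ ∫⁻ _ in Ico u₁ (u₁ + l.re), 1 := by
          refine lintegral_mono fun u => ?_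
          by_cases h : ∃ q : Γ ⧸ Subgroup.zpowers α, 2 * c0 < Tg ρ lam q.out (gp a b u)
          · obtain ⟨q0, hq0⟩ := h
            show ∑' q : Γ ⧸ Subgroup.zpowers α, P2 ρ lam c0 a b q.out u ≤ 1
            rw [tsum_eq_single q0]
            · unfold P2
              rw [if_pos hq0]
            · intro q hq
              unfold P2
              rw [if_neg]
              intro h'
              exact hq (one_coset hACT' hDT (by linarith) (hup u) q q0 h' hq0)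
          · show ∑' q : Γ ⧸ Subgroup.zpowers α, P2 ρ lam c0 a b q.out u ≤ 1
            have h0 : ∀ q : Γ ⧸ Subgroup.zpowers α, P2 ρ lam c0 a b q.out u = 0 := by
              intro q
              unfold P2
              rw [if_neg]
              intro h'
              exact h ⟨q, h'⟩
            simp only [h0, tsum_zero]
            exact zero_le
      _ = ENNReal.ofReal l.re := by
          rw [setLIntegral_const, hvolI, one_mul]
  refine (hUNA Γ ρ A B α lam M G m φ C3 hAnn μ0 μ hCof γ a b l hγ hMlt hl u₁).trans ?_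
  refine fin_sum _ _ _ _ (ENNReal.ofReal (6 * Real.pi)) (ENNReal.ofReal (C2 / m ^ 2))
    (ENNReal.ofReal C2) _ _ _ _ (fun q => ?_) hS1 hS2 ?_ (ENNReal.ofReal_le_ofReal hCC2)
  · -- the contribution of one lift
    obtain ⟨hpa, hpb, hda, hdb, haq, ha0, hbq, hb0, habq⟩ := hdfx q.out
    by_cases hc : cen ρ q.out a b ∈ Ico u₁ (u₁ + l.re)
    · rw [indicator_of_mem hc, indicator_of_mem hc, indicator_of_mem hc]
      have htr := (hTRA Γ ρ A B hKD q.out E hE0.1 hE0.2.measurableSet).2.2 a b hab hda hdb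
      rw [htr.2 lam G φ m μ0 μ hCof]
      by_cases h : Crs ρ lam c0 a b q.out
      · have h1 := hlkg Γ ρ A B α lam M G m φ C3 hAnn hCls hm₁ μ0 μ hCof hμ0 _ haq _ hbq ha0 hb0
          habq
        rw [if_pos ⟨h, hc⟩]
        have h2 : ∫⁻ u : ℝ, P2 ρ lam c0 a b q.out u =
            volume {u : ℝ | 2 * c0 < TT lam (gp (mb (ρ q.out⁻¹) a) (mb (ρ q.out⁻¹) b) u)} := by
          have e1 : (fun u : ℝ => P2 ρ lam c0 a b q.out u) =
              {u : ℝ | 2 * c0 < Tg ρ lam q.out (gp a b u)}.indicator 1 := by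
            funext u
            unfold P2
            by_cases hu : 2 * c0 < Tg ρ lam q.out (gp a b u)
            · rw [if_pos hu, indicator_of_mem (by exact hu)]
              rfl
            · rw [if_neg hu, indicator_of_notMem (by exact hu)]
          rw [e1, lintegral_indicator_one
            (isOpen_lt continuous_const (hcont q.out)).measurableSet]
          have e2 : {u : ℝ | 2 * c0 < Tg ρ lam q.out (gp a b u)} =
              (fun u : ℝ => u + Real.log (‖(ρ q.out⁻¹) 1 0 * a + (ρ q.out⁻¹) 1 1‖ /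
                ‖(ρ q.out⁻¹) 1 0 * b + (ρ q.out⁻¹) 1 1‖)) ⁻¹'
              {u : ℝ | 2 * c0 < TT lam (gp (mb (ρ q.out⁻¹) a) (mb (ρ q.out⁻¹) b) u)} := by
            ext u
            show 2 * c0 < Tg ρ lam q.out (gp a b u) ↔ 2 * c0 < TT lam (gp _ _ _)
            unfold Tg
            rw [(hG1 (ρ q.out⁻¹) a b u hab hda hdb).2]
          rw [e2, measure_preimage_add_right]
        rw [h2]
        refine h1.trans ?_
        rw [ENNReal.ofReal_mul hC2.le, add_comm]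
        gcongr
        exact le_add_self
      · have h1 := hLKA Γ ρ A B α lam M G m φ C3 hAnn hCls μ0 μ hCof hμ0 _ haq _ hbq ha0 hb0 habq
        have h2 := ((hTRA Γ ρ A B hKD q.out Em hEm.1 hEm.2.measurableSet).2.2 a b hab hda hdb).1
        rw [← h2, (hCRF a b hab).2.1 _ (hVm _)] at h1
        refine h1.trans ?_
        have e1 : (fun u : ℝ => P1 ρ lam c0 a b Em q.out u) =
            fun u : ℝ => ENNReal.ofReal (hv (mb (ρ q.out) '' Em) (gp a b u)) := by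
          funext u
          unfold P1
          rw [if_neg h]
        have e3 : ENNReal.ofReal (6 * Real.pi) = 3 * ENNReal.ofReal (2 * Real.pi) := by
          have e4 : (3 : ℝ≥0∞) = ENNReal.ofReal 3 := by
            rw [ENNReal.ofReal_ofNat]
          rw [e4, ← ENNReal.ofReal_mul (by norm_num)]
          congr 1
          ring
        rw [e1, e3, ← mul_assoc]
        exact le_add_right le_self_add
    · rw [indicator_of_notMem hc]
      exact zero_le
  · -- the final inequality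
    rw [← ENNReal.ofReal_mul (by positivity), ← ENNReal.ofReal_mul (by positivity),
      ← ENNReal.ofReal_mul (by positivity), ← ENNReal.ofReal_add (by positivity) (by positivity)]
    refine ENNReal.ofReal_le_ofReal ?_
    have hm2 : 0 < m ^ 2 := by positivity
    have hb2 : 1 ≤ bb ^ 2 := by nlinarith
    have h1 : C2 / m ^ 2 * l.re ≤ C2 * bb ^ 2 / m ^ 2 * l.re := by
      refine mul_le_mul_of_nonneg_right ?_ hl.le
      refine div_le_div_of_nonneg_right ?_ hm2.le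
      nlinarith
    have h2 : 6 * Real.pi * (C1 * bb ^ 2 / m ^ 2 * l.re) + C2 * bb ^ 2 / m ^ 2 * l.re =
        (6 * Real.pi * C1 + C2) * (bb ^ 2 / m ^ 2 * l.re) := by ring
    have h3 : (6 * Real.pi * C1 + C2) * (bb ^ 2 / m ^ 2 * l.re) ≤ C * (bb ^ 2 / m ^ 2 * l.re) := by
      refine mul_le_mul_of_nonneg_right ?_ (by positivity)
      rw [hC]
      linarith
    have h4 : C * (bb ^ 2 / m ^ 2 * l.re) = C * bb ^ 2 / m ^ 2 * l.re := by ring
    linarith

end Pool.Agent.Helper11.QT
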